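import Pool.Agent.N963.KL.Stm

set_option autoImplicit false

/-!
# Project KL, task COS (helper539): the operator `cos (a D)`
-/

namespace Pool.Agent.N539.KL

open Complex Filter Topology MeasureTheory Polynomial
open scoped ComplexConjugate
open Pool.Agent.N963.GN (LPc trm)
open Pool.Agent.N963.KL

/-- real and imaginary part of `(1 + i c X) ^ k` -/
noncomputable def pq (c : ℝ) : ℕ → ℝ[X] × ℝ[X]
  | 0 => (1, 0)
  | k + 1 => ((pq c k).1 - C c * X * (pq c k).2, (pq c k).2 + C c * X * (pq c k).1)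

theorem pq_eval (c : ℝ) (w : ℂ) (k : ℕ) :
    aeval w (pq c k).1 + I * aeval w (pq c k).2 = (1 + I * c * w) ^ k ∧
      aeval w (pq c k).1 - I * aeval w (pq c k).2 = (1 - I * c * w) ^ k := by
  induction k with
  | zero => simp [pq]
  | succ k ih =>
    obtain ⟨h1, h2⟩ := ih
    have hI : I * I = -1 := Complex.I_mul_I
    simp only [pq, map_sub, map_add, map_mul, aeval_C, aeval_X, Complex.coe_algebraMap]
    rw [pow_succ, pow_succ, ← h1, ← h2]
    constructor
    · linear_combination (-(c : ℂ) * w * aeval w (pq c k).2) * hI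
    · linear_combination (-(c : ℂ) * w * aeval w (pq c k).2) * hI

theorem pq_val (c : ℝ) (w : ℂ) (k : ℕ) :
    aeval w (pq c k).1 = ((1 + I * c * w) ^ k + (1 - I * c * w) ^ k) / 2 := by
  obtain ⟨h1, h2⟩ := pq_eval c w k
  rw [← h1, ← h2]
  ring

theorem pq_zero (c : ℝ) (hc : c ≠ 0) (w : ℂ) (k : ℕ) (h : aeval w (pq c k).1 = 0) : w.im = 0 := by
  rw [pq_val] at h
  rcases Nat.eq_zero_or_pos k with hk | hk
  · subst hk
    norm_num at h
  · have h1 : (1 + I * c * w) ^ k = -(1 - I * c * w) ^ k := by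
      have : (1 + I * c * w) ^ k + (1 - I * c * w) ^ k = 0 := by
        have h2 := congrArg (fun z => 2 * z) h
        simp only [mul_zero] at h2
        rw [← h2]; ring
      exact eq_neg_of_add_eq_zero_left this
    have h2 : ‖1 + I * c * w‖ ^ k = ‖1 - I * c * w‖ ^ k := by
      rw [← norm_pow, ← norm_pow, h1, norm_neg]
    have h3 : ‖1 + I * c * w‖ = ‖1 - I * c * w‖ :=
      (pow_left_inj₀ (norm_nonneg _) (norm_nonneg _) hk.ne').1 h2
    have h4 : Complex.normSq (1 + I * c * w) = Complex.normSq (1 - I * c * w) := by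
      rw [Complex.normSq_eq_norm_sq, Complex.normSq_eq_norm_sq, h3]
    rw [Complex.normSq_apply, Complex.normSq_apply] at h4
    simp only [add_re, one_re, mul_re, I_re, zero_mul, I_im, ofReal_re, one_mul, zero_sub, ofReal_im,
      mul_zero, sub_zero, mul_im, zero_add, add_im, one_im, sub_re, sub_im] at h4
    have h5 : c * w.im = 0 := by nlinarith
    rcases mul_eq_zero.1 h5 with h6 | h6
    · exact absurd h6 hc
    · exact h6

theorem pow_sub_bd (x y : ℂ) (M : ℝ) (hx : ‖x‖ ≤ M) (hy : ‖y‖ ≤ M) (n : ℕ) :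
    ‖x ^ (n + 1) - y ^ (n + 1)‖ ≤ (n + 1) * M ^ n * ‖x - y‖ := by
  have hM : 0 ≤ M := (norm_nonneg x).trans hx
  induction n with
  | zero => simp
  | succ n ih =>
    have e1 : x ^ (n + 1 + 1) - y ^ (n + 1 + 1) = x * (x ^ (n + 1) - y ^ (n + 1)) + (x - y) * y ^ (n + 1) := by
      ring
    rw [e1]
    refine (norm_add_le _ _).trans ?_
    rw [norm_mul, norm_mul, norm_pow]
    calc ‖x‖ * ‖x ^ (n + 1) - y ^ (n + 1)‖ + ‖x - y‖ * ‖y‖ ^ (n + 1)
        ≤ M * ((n + 1) * M ^ n * ‖x - y‖) + ‖x - y‖ * M ^ (n + 1) := by gcongr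
      _ = ((n + 1 : ℕ) + 1) * M ^ (n + 1) * ‖x - y‖ := by push_cast; ring

theorem exp_bd (w : ℂ) (n : ℕ) (hw : ‖w‖ ≤ n + 1) :
    ‖(1 + w / (n + 1 : ℕ)) ^ (n + 1) - cexp w‖ ≤ ‖w‖ ^ 2 * Real.exp ‖w‖ / (n + 1) := by
  have hn : (0 : ℝ) < n + 1 := by positivity
  have hnc : ((n + 1 : ℕ) : ℂ) ≠ 0 := by exact_mod_cast Nat.succ_ne_zero n
  have e1 : cexp w = cexp (w / (n + 1 : ℕ)) ^ (n + 1) := by
    rw [← Complex.exp_nat_mul]
    congr 1
    field_simp
  have hnorm : ‖w / (n + 1 : ℕ)‖ = ‖w‖ / (n + 1) := by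
    rw [norm_div, Complex.norm_natCast]; push_cast; rfl
  have hx : ‖1 + w / (n + 1 : ℕ)‖ ≤ Real.exp (‖w‖ / (n + 1)) := by
    refine (norm_add_le _ _).trans ?_
    rw [norm_one, hnorm, add_comm]
    exact Real.add_one_le_exp _
  have hy : ‖cexp (w / (n + 1 : ℕ))‖ ≤ Real.exp (‖w‖ / (n + 1)) := by
    rw [Complex.norm_exp]
    refine Real.exp_le_exp.2 ?_
    rw [← hnorm]
    exact Complex.re_le_norm _
  have hb := pow_sub_bd _ _ _ hx hy n
  rw [e1]
  refine hb.trans ?_
  have h1 : ‖1 + w / (n + 1 : ℕ) - cexp (w / (n + 1 : ℕ))‖ ≤ (‖w‖ / (n + 1)) ^ 2 := by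
    have h := Complex.norm_exp_sub_one_sub_id_le (x := w / (n + 1 : ℕ)) (by
      rw [hnorm, div_le_one hn]; exact hw)
    rw [hnorm] at h
    rw [← norm_neg]
    refine le_trans (le_of_eq ?_) h
    congr 1
    ring
  have h2 : Real.exp (‖w‖ / (n + 1)) ^ n ≤ Real.exp ‖w‖ := by
    rw [← Real.exp_nat_mul]
    refine Real.exp_le_exp.2 ?_
    rw [mul_div_assoc', div_le_iff₀ hn]
    nlinarith [norm_nonneg w]
  calc (n + 1) * Real.exp (‖w‖ / (n + 1)) ^ n * ‖1 + w / (n + 1 : ℕ) - cexp (w / (n + 1 : ℕ))‖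
      ≤ (n + 1) * Real.exp ‖w‖ * (‖w‖ / (n + 1)) ^ 2 := by gcongr
    _ = ‖w‖ ^ 2 * Real.exp ‖w‖ / (n + 1) := by
      field_simp

theorem cos_lp (a : ℝ) (ha : 0 < a) : LPc (fun z => Complex.cos (a * z)) := by
  refine ⟨⟨0, by simp⟩, fun N => (pq (a / (N + 1 : ℕ)) (N + 1)).1, ?_, ?_⟩
  · intro N w h
    refine pq_zero _ ?_ w _ h
    have : (0 : ℝ) < (N + 1 : ℕ) := by positivity
    positivity
  · rw [Metric.tendstoLocallyUniformly_iff]
    intro ε hε x
    refine ⟨Metric.ball x 1, Metric.ball_mem_nhds x one_pos, ?_⟩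
    obtain ⟨R, hR⟩ : ∃ R, R = a * (‖x‖ + 1) := ⟨_, rfl⟩
    have hR0 : 0 ≤ R := by rw [hR]; positivity
    have hev : ∀ᶠ n : ℕ in atTop, R + (R ^ 2 * Real.exp R) / ε < n := by
      exact (tendsto_natCast_atTop_atTop (R := ℝ)).eventually_gt_atTop _
    filter_upwards [hev] with n hn y hy
    have hy1 : ‖y‖ ≤ ‖x‖ + 1 := by
      rw [Metric.mem_ball, dist_eq_norm] at hy
      calc ‖y‖ = ‖x + (y - x)‖ := by congr 1; ring
        _ ≤ ‖x‖ + ‖y - x‖ := norm_add_le _ _
        _ ≤ ‖x‖ + 1 := by linarith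
    have hn0 : (0 : ℝ) < n + 1 := by positivity
    have hq : 0 ≤ R ^ 2 * Real.exp R / ε := by positivity
    have hRn : R ≤ n + 1 := by linarith
    have hyn : ‖I * a * y‖ ≤ R := by
      rw [norm_mul, norm_mul, Complex.norm_I, one_mul, Complex.norm_real, Real.norm_eq_abs, abs_of_pos ha, hR]
      gcongr
    have hyn' : ‖-(I * a * y)‖ ≤ R := by rw [norm_neg]; exact hyn
    have b1 := exp_bd (I * a * y) n (hyn.trans hRn)
    have b2 := exp_bd (-(I * a * y)) n (hyn'.trans hRn)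
    have c1 : ‖I * a * y‖ ^ 2 * Real.exp ‖I * a * y‖ / (n + 1) ≤ R ^ 2 * Real.exp R / (n + 1) := by
      gcongr
    have c2 : ‖-(I * a * y)‖ ^ 2 * Real.exp ‖-(I * a * y)‖ / (n + 1) ≤ R ^ 2 * Real.exp R / (n + 1) := by
      gcongr
    have hfin : R ^ 2 * Real.exp R / (n + 1) < ε := by
      rw [div_lt_iff₀ hn0]
      have : R ^ 2 * Real.exp R / ε < n + 1 := by linarith
      rw [div_lt_iff₀ hε] at this
      linarith
    have hval : Complex.cos (a * y) - aeval y (pq (a / (n + 1 : ℕ)) (n + 1)).1 =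
        -(((1 + I * a * y / (n + 1 : ℕ)) ^ (n + 1) - cexp (I * a * y)) +
          ((1 + -(I * a * y) / (n + 1 : ℕ)) ^ (n + 1) - cexp (-(I * a * y)))) / 2 := by
      rw [pq_val, Complex.cos]
      have e1 : (1 : ℂ) + I * ((a / (n + 1 : ℕ) : ℝ) : ℂ) * y = 1 + I * a * y / (n + 1 : ℕ) := by
        push_cast; ring
      have e2 : (1 : ℂ) - I * ((a / (n + 1 : ℕ) : ℝ) : ℂ) * y = 1 + -(I * a * y) / (n + 1 : ℕ) := by
        push_cast; ring
      have e3 : (a : ℂ) * y * I = I * a * y := by ring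
      have e4 : -((a : ℂ) * y) * I = -(I * a * y) := by ring
      rw [e1, e2, e3, e4]
      ring
    rw [dist_eq_norm, hval, norm_div, norm_neg]
    have : ‖(2 : ℂ)‖ = 2 := by simp
    rw [this]
    have h3 := norm_add_le ((1 + I * a * y / (n + 1 : ℕ)) ^ (n + 1) - cexp (I * a * y))
      ((1 + -(I * a * y) / (n + 1 : ℕ)) ^ (n + 1) - cexp (-(I * a * y)))
    rw [div_lt_iff₀ two_pos]
    linarith

theorem cos_gro (a κ : ℝ) (hκ : 0 < κ) (ha : κ < a) : ∃ L0 : ℝ, ∀ u v : ℝ, L0 ≤ u → u ≤ v →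
    ‖Complex.cos (a * (I * u))‖ * Real.exp (κ * (v - u)) ≤ ‖Complex.cos (a * (I * v))‖ := by
  have hp : 0 < a - κ := by linarith
  have ha0 : 0 < a := by linarith
  refine ⟨((a + κ) / (a - κ)) / (2 * a), ?_⟩
  intro u v hu huv
  have hu0 : 0 ≤ u := le_trans (by positivity) hu
  have hcos : ∀ t : ℝ, ‖Complex.cos (a * (I * t))‖ = Real.cosh (a * t) := by
    intro t
    have e1 : (a : ℂ) * (I * t) = ((a * t : ℝ) : ℂ) * I := by push_cast; ring
    rw [e1, Complex.cos_mul_I, ← Complex.ofReal_cosh, Complex.norm_real, Real.norm_eq_abs,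
      abs_of_pos (Real.cosh_pos _)]
  rw [hcos, hcos, Real.cosh_eq, Real.cosh_eq]
  -- `p = a - κ`, `q = a + κ`
  have k1 : (a + κ) / (a - κ) ≤ Real.exp (2 * a * u) := by
    have h1 : (a + κ) / (a - κ) ≤ 2 * a * u := by
      rw [div_le_iff₀ (by positivity)] at hu
      linarith
    have h2 := Real.add_one_le_exp (2 * a * u)
    linarith
  have k2 : (a + κ) * Real.exp (-((a + κ) * u)) ≤ (a - κ) * Real.exp ((a - κ) * u) := by
    rw [div_le_iff₀ hp] at k1
    have e1 : Real.exp ((a - κ) * u) = Real.exp (2 * a * u) * Real.exp (-((a + κ) * u)) := by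
      rw [← Real.exp_add]; congr 1; ring
    rw [e1]
    have := Real.exp_pos (-((a + κ) * u))
    calc (a + κ) * Real.exp (-((a + κ) * u)) ≤ (Real.exp (2 * a * u) * (a - κ)) * Real.exp (-((a + κ) * u)) := by
          gcongr
      _ = _ := by ring
  obtain ⟨t, ht⟩ : ∃ t, t = v - u := ⟨_, rfl⟩
  have ht0 : 0 ≤ t := by rw [ht]; linarith
  have hv : v = u + t := by rw [ht]; ring
  have k3 : Real.exp ((a - κ) * u) * ((a - κ) * t) ≤ Real.exp ((a - κ) * v) - Real.exp ((a - κ) * u) := by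
    have e1 : Real.exp ((a - κ) * v) = Real.exp ((a - κ) * u) * Real.exp ((a - κ) * t) := by
      rw [← Real.exp_add, hv]; congr 1; ring
    rw [e1]
    have h2 := Real.add_one_le_exp ((a - κ) * t)
    have := Real.exp_pos ((a - κ) * u)
    nlinarith
  have k4 : Real.exp (-((a + κ) * u)) - Real.exp (-((a + κ) * v)) ≤ Real.exp (-((a + κ) * u)) * ((a + κ) * t) := by
    have e1 : Real.exp (-((a + κ) * v)) = Real.exp (-((a + κ) * u)) * Real.exp (-((a + κ) * t)) := by
      rw [← Real.exp_add, hv]; congr 1; ring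
    rw [e1]
    have h2 := Real.add_one_le_exp (-((a + κ) * t))
    have := Real.exp_pos (-((a + κ) * u))
    nlinarith
  have k5 : Real.exp (-((a + κ) * u)) - Real.exp (-((a + κ) * v)) ≤
      Real.exp ((a - κ) * v) - Real.exp ((a - κ) * u) := by
    refine k4.trans (le_trans ?_ k3)
    nlinarith
  -- multiply by `exp (κ v) / 2`
  have f1 : Real.exp (a * u) * Real.exp (κ * (v - u)) = Real.exp ((a - κ) * u) * Real.exp (κ * v) := by
    rw [← Real.exp_add, ← Real.exp_add]; congr 1; ring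
  have f2 : Real.exp (-(a * u)) * Real.exp (κ * (v - u)) = Real.exp (-((a + κ) * u)) * Real.exp (κ * v) := by
    rw [← Real.exp_add, ← Real.exp_add]; congr 1; ring
  have f3 : Real.exp (a * v) = Real.exp ((a - κ) * v) * Real.exp (κ * v) := by
    rw [← Real.exp_add]; congr 1; ring
  have f4 : Real.exp (-(a * v)) = Real.exp (-((a + κ) * v)) * Real.exp (κ * v) := by
    rw [← Real.exp_add]; congr 1; ring
  have f5 : (Real.exp (a * u) + Real.exp (-(a * u))) / 2 * Real.exp (κ * (v - u)) =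
      (Real.exp ((a - κ) * u) + Real.exp (-((a + κ) * u))) * Real.exp (κ * v) / 2 := by
    have e1 : (Real.exp (a * u) + Real.exp (-(a * u))) / 2 * Real.exp (κ * (v - u)) =
        (Real.exp (a * u) * Real.exp (κ * (v - u)) + Real.exp (-(a * u)) * Real.exp (κ * (v - u))) / 2 := by ring
    rw [e1, f1, f2]
    ring
  rw [f5, f3, f4, ← add_mul]
  have := Real.exp_pos (κ * v)
  have k6 : Real.exp ((a - κ) * u) + Real.exp (-((a + κ) * u)) ≤
      Real.exp ((a - κ) * v) + Real.exp (-((a + κ) * v)) := by linarith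
  gcongr

theorem id_cos (a : ℝ) (n : ℕ) : iteratedDeriv n (fun z : ℂ => Complex.cos (a * z)) =
    fun z => ((I * a) ^ n * cexp (I * a * z) + (-(I * a)) ^ n * cexp (-(I * a) * z)) / 2 := by
  induction n with
  | zero =>
    funext z
    rw [iteratedDeriv_zero, Complex.cos, pow_zero, pow_zero, one_mul, one_mul]
    congr 3
    · ring
    · ring
  | succ n ih =>
    rw [iteratedDeriv_succ, ih]
    funext z
    have h1 : ∀ c : ℂ, HasDerivAt (fun z : ℂ => cexp (c * z)) (cexp (c * z) * c) z := by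
      intro c
      have : HasDerivAt (fun z : ℂ => c * z) c z := by simpa using (hasDerivAt_id z).const_mul c
      exact this.cexp
    have h2 := (((h1 (I * a)).const_mul ((I * a) ^ n)).add ((h1 (-(I * a))).const_mul ((-(I * a)) ^ n))).div_const 2
    have h3 := h2.deriv
    rw [show (fun z : ℂ => ((I * a) ^ n * cexp (I * a * z) + (-(I * a)) ^ n * cexp (-(I * a) * z)) / 2) =
      (fun x : ℂ => ((fun y => (I * ↑a) ^ n * cexp (I * ↑a * y)) + fun y => (-(I * ↑a)) ^ n * cexp (-(I * ↑a) * y)) x / 2)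
      from rfl, h3]
    ring

theorem diff_Xi : Differentiable ℂ Xi := by
  unfold Xi
  have h1 : Differentiable ℂ (fun z : ℂ => completedRiemannZeta₀ (1 / 2 + I * z)) :=
    differentiable_completedZeta₀.comp (by fun_prop)
  fun_prop

theorem cos_sum (a : ℝ) (z : ℂ) : HasSum (trm (fun z => Complex.cos (a * z)) Xi z)
    ((Xi (z + I * a) + Xi (z - I * a)) / 2) := by
  have h1 := Complex.hasSum_taylorSeries_of_entire diff_Xi z (z + I * a)
  have h2 := Complex.hasSum_taylorSeries_of_entire diff_Xi z (z - I * a)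
  have h3 := (h1.add h2).div_const 2
  suffices h4 : trm (fun z => Complex.cos (a * z)) Xi z = fun i : ℕ =>
      ((i.factorial : ℂ)⁻¹ • (z + I * a - z) ^ i • iteratedDeriv i Xi z +
        (i.factorial : ℂ)⁻¹ • (z - I * a - z) ^ i • iteratedDeriv i Xi z) / 2 by
    rw [h4]
    exact h3
  funext n
  unfold trm
  rw [id_cos]
  simp only [mul_zero, Complex.exp_zero, mul_one, smul_eq_mul]
  rw [show z + I * a - z = I * a by ring, show z - I * a - z = -(I * a) by ring]
  ring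

theorem cos : S_COS := ⟨cos_lp, cos_gro, cos_sum⟩

end Pool.Agent.N539.KL
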