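import Pool.Agent.N963.KL.Stm

set_option autoImplicit false

/-!
# Project KL, task ZER (helper539): from the behaviour of `A` to real, simple, equally spaced zeros
-/

namespace Pool.Agent.N539.KL

open Complex Filter Topology MeasureTheory
open scoped ComplexConjugate
open Pool.Agent.N963.KL

/-- the hypothesis at one point -/
structure AP (A : ℂ → ℂ) (ε C c x : ℝ) (β : ℂ) (m : ℝ) : Prop where
  e0 : 0 < ε
  e1 : ε ≤ 1 / 4
  C1 : 1 ≤ C
  c0 : 0 < c
  m0 : 0 < m
  hβ : ‖β - (Real.log x / 2 : ℝ)‖ ≤ C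
  up : ∀ z : ℂ, ‖z - x‖ ≤ 1 → ‖A z‖ ≤ C * m * Real.exp (-(β * (z - x)).im) *
    Real.exp (Real.log x / 2 * max (z.im - ε) 0)
  lo : ∀ z : ℂ, ‖z - x‖ ≤ 1 → z.im ≤ ε → c * m * Real.exp (-(β * (z - x)).im) ≤ ‖A z‖

/-- the normalised function -/
noncomputable def hh (A : ℂ → ℂ) (β : ℂ) (m x : ℝ) (z : ℂ) : ℂ :=
  A z * cexp (-(I * (β * (z - x)))) / m

section
variable {A : ℂ → ℂ} {ε C c x : ℝ} {β : ℂ} {m : ℝ}

theorem nrm_A (hm : 0 < m) (z : ℂ) :
    ‖A z‖ = ‖hh A β m x z‖ * m * Real.exp (-(β * (z - x)).im) := by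
  unfold hh
  rw [norm_div, norm_mul, Complex.norm_exp, Complex.norm_real, Real.norm_eq_abs, abs_of_pos hm]
  have e1 : (-(I * (β * (z - x)))).re = (β * (z - x)).im := by
    rw [Complex.neg_re, Complex.I_mul_re, neg_neg]
  rw [e1, Real.exp_neg]
  have := Real.exp_pos (β * (z - x)).im
  field_simp

theorem hh_up (h : AP A ε C c x β m) (z : ℂ) (hz : ‖z - x‖ ≤ ε) : ‖hh A β m x z‖ ≤ C := by
  have h1 := h.up z (by linarith [h.e1])
  have him : z.im ≤ ε := by
    have h2 : (z - x).im ≤ ‖z - x‖ := (le_abs_self _).trans (Complex.abs_im_le_norm _)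
    simp only [sub_im, ofReal_im, sub_zero] at h2
    linarith
  rw [max_eq_right (by linarith), mul_zero, Real.exp_zero, mul_one, nrm_A (A := A) (β := β) (x := x) h.m0] at h1
  have h3 : 0 < m * Real.exp (-(β * (z - x)).im) := mul_pos h.m0 (Real.exp_pos _)
  rw [mul_assoc, mul_assoc] at h1
  exact le_of_mul_le_mul_right h1 h3

theorem hh_lo (h : AP A ε C c x β m) (z : ℂ) (hz : ‖z - x‖ ≤ ε) : c ≤ ‖hh A β m x z‖ := by
  have him : z.im ≤ ε := by
    have h2 : (z - x).im ≤ ‖z - x‖ := (le_abs_self _).trans (Complex.abs_im_le_norm _)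
    simp only [sub_im, ofReal_im, sub_zero] at h2
    linarith
  have h1 := h.lo z (by linarith [h.e1]) him
  rw [nrm_A (A := A) (β := β) (x := x) h.m0] at h1
  have h3 : 0 < m * Real.exp (-(β * (z - x)).im) := mul_pos h.m0 (Real.exp_pos _)
  rw [mul_assoc, mul_assoc] at h1
  exact le_of_mul_le_mul_right h1 h3

theorem hh_hd (hA : Differentiable ℂ A) (z : ℂ) : HasDerivAt (hh A β m x)
    ((deriv A z * cexp (-(I * (β * (z - x)))) + A z * (cexp (-(I * (β * (z - x)))) * (-(I * β)))) / m) z := by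
  have h1 : HasDerivAt (fun z : ℂ => -(I * (β * (z - x)))) (-(I * β)) z := by
    have h0 : HasDerivAt (fun z : ℂ => z - (x : ℂ)) 1 z := (hasDerivAt_id z).sub_const _
    have h2 := ((h0.const_mul β).const_mul I).neg
    rw [mul_one] at h2
    exact h2
  exact ((hA z).hasDerivAt.mul h1.cexp).div_const _

theorem hh_diff (hA : Differentiable ℂ A) : Differentiable ℂ (hh A β m x) := fun z =>
  (hh_hd hA z).differentiableAt

theorem hh_der (hA : Differentiable ℂ A) (h : AP A ε C c x β m) (z : ℂ) (hz : ‖z - x‖ ≤ ε / 2) :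
    ‖deriv (hh A β m x) z‖ ≤ C / (ε / 2) := by
  have he := h.e0
  refine Complex.norm_deriv_le_of_forall_mem_sphere_norm_le (by linarith)
    ((hh_diff hA).diffContOnCl) ?_
  intro w hw
  refine hh_up h w ?_
  rw [mem_sphere_iff_norm] at hw
  calc ‖w - x‖ = ‖(w - z) + (z - x)‖ := by congr 1; ring
    _ ≤ ‖w - z‖ + ‖z - x‖ := norm_add_le _ _
    _ ≤ ε := by linarith

/-- the size of `A` on both sides of the real axis -/
theorem sides (hA : Differentiable ℂ A) (h : AP A ε C c x β m)
    (hx : 4 * C + 4 * C / (c * ε) ≤ Real.log x) (y : ℝ) (hy : 0 < y) (hy2 : y ≤ 1 / 2) :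
    ‖A (x + y * I)‖ < ‖A (x - y * I)‖ := by
  have hC := h.C1
  have hc := h.c0
  have he := h.e0
  have hm := h.m0
  have hre : Real.log x / 2 - C ≤ β.re := by
    have h1 : |(β - (Real.log x / 2 : ℝ)).re| ≤ C := (Complex.abs_re_le_norm _).trans h.hβ
    rw [Complex.sub_re, Complex.ofReal_re] at h1
    have := (abs_le.1 h1).1
    linarith
  have hq : 0 < 4 * C / (c * ε) := by positivity
  have i1 : ((x : ℂ) + y * I - x) = y * I := by ring
  have i2 : ((x : ℂ) - y * I - x) = -(y * I) := by ring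
  have m1 : (β * (y * I)).im = y * β.re := by
    simp [Complex.mul_im]
    ring
  have m2 : (β * (-(y * I))).im = -(y * β.re) := by
    rw [mul_neg, Complex.neg_im, m1]
  have n1 : ‖(x : ℂ) + y * I - x‖ = y := by
    rw [i1, norm_mul, Complex.norm_I, mul_one, Complex.norm_real, Real.norm_eq_abs, abs_of_pos hy]
  have n2 : ‖(x : ℂ) - y * I - x‖ = y := by
    rw [i2, norm_neg, norm_mul, Complex.norm_I, mul_one, Complex.norm_real, Real.norm_eq_abs, abs_of_pos hy]
  rcases lt_or_ge y (ε / 2) with hs | hb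
  · -- close to the real axis
    have a1 := nrm_A (A := A) (β := β) (x := x) hm (x + y * I)
    have a2 := nrm_A (A := A) (β := β) (x := x) hm (x - y * I)
    rw [i1, m1] at a1
    rw [i2, m2, neg_neg] at a2
    have hlo := hh_lo h (x - y * I) (by rw [n2]; linarith)
    have hmv : ‖hh A β m x (x + y * I) - hh A β m x (x - y * I)‖ ≤ C / (ε / 2) * (2 * y) := by
      have hcv : Convex ℝ (Metric.closedBall (x : ℂ) (ε / 2)) := convex_closedBall _ _
      have h1 := hcv.norm_image_sub_le_of_norm_deriv_le (f := hh A β m x) (C := C / (ε / 2))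
        (x := x - y * I) (y := x + y * I)
        (fun z _ => hh_diff hA z) (fun z hz => hh_der hA h z (by rwa [← mem_closedBall_iff_norm]))
        (by rw [mem_closedBall_iff_norm, n2]; exact hs.le) (by rw [mem_closedBall_iff_norm, n1]; exact hs.le)
      refine h1.trans (le_of_eq ?_)
      congr 1
      rw [show (x : ℂ) + y * I - (x - y * I) = 2 * (y * I) by ring, norm_mul, norm_mul, Complex.norm_I, mul_one,
        Complex.norm_real, Real.norm_eq_abs, abs_of_pos hy]
      simp
    have hup : ‖hh A β m x (x + y * I)‖ ≤ ‖hh A β m x (x - y * I)‖ * Real.exp (4 * C / (c * ε) * y) := by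
      have h1 : ‖hh A β m x (x + y * I)‖ ≤ ‖hh A β m x (x - y * I)‖ + C / (ε / 2) * (2 * y) := by
        calc ‖hh A β m x (x + y * I)‖ = ‖hh A β m x (x - y * I) +
              (hh A β m x (x + y * I) - hh A β m x (x - y * I))‖ := by congr 1; ring
          _ ≤ _ := (norm_add_le _ _).trans (by linarith)
      have h2 : C / (ε / 2) * (2 * y) = c * (4 * C / (c * ε) * y) := by
        field_simp
        ring
      have h3 := Real.add_one_le_exp (4 * C / (c * ε) * y)
      have h4 : 0 ≤ 4 * C / (c * ε) * y := by positivity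
      rw [h2] at h1
      refine h1.trans ?_
      calc ‖hh A β m x (x - y * I)‖ + c * (4 * C / (c * ε) * y)
          ≤ ‖hh A β m x (x - y * I)‖ + ‖hh A β m x (x - y * I)‖ * (4 * C / (c * ε) * y) := by gcongr
        _ = ‖hh A β m x (x - y * I)‖ * (4 * C / (c * ε) * y + 1) := by ring
        _ ≤ _ := by gcongr
    rw [a1, a2]
    have hpos : 0 < ‖hh A β m x (x - y * I)‖ := lt_of_lt_of_le hc hlo
    calc ‖hh A β m x (x + y * I)‖ * m * Real.exp (-(y * β.re))
        ≤ ‖hh A β m x (x - y * I)‖ * Real.exp (4 * C / (c * ε) * y) * m * Real.exp (-(y * β.re)) := by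
          gcongr
      _ = ‖hh A β m x (x - y * I)‖ * m * Real.exp (4 * C / (c * ε) * y + -(y * β.re)) := by
          rw [Real.exp_add]; ring
      _ < ‖hh A β m x (x - y * I)‖ * m * Real.exp (y * β.re) := by
          have : 4 * C / (c * ε) * y + -(y * β.re) < y * β.re := by
            have h5 : 4 * C / (c * ε) < 2 * β.re := by linarith
            nlinarith
          gcongr
  · -- far from the real axis
    have u1 := h.up (x + y * I) (by rw [n1]; linarith)
    have l1 := h.lo (x - y * I) (by rw [n2]; linarith) (by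
      simp only [sub_im, ofReal_im, mul_im, ofReal_re, I_im, mul_one, I_re, mul_zero, add_zero]
      linarith)
    rw [i1, m1] at u1
    rw [i2, m2, neg_neg] at l1
    have hy' : ((x : ℂ) + y * I).im = y := by simp
    rw [hy'] at u1
    have hmax : max (y - ε) 0 ≤ y := max_le (by linarith) hy.le
    have hlx : 0 ≤ Real.log x := by
      have : 0 ≤ 4 * C := by linarith
      linarith
    have hexp : C * Real.exp (-(y / 2 * (Real.log x - 4 * C))) < c := by
      have h1 : C / c ≤ y / 2 * (Real.log x - 4 * C) := by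
        calc C / c = (ε / 4) * (4 * C / (c * ε)) := by field_simp
          _ ≤ y / 2 * (4 * C / (c * ε)) :=
            mul_le_mul_of_nonneg_right (by linarith : ε / 4 ≤ y / 2) hq.le
          _ ≤ _ := by gcongr; linarith
      have h2 := Real.add_one_le_exp (y / 2 * (Real.log x - 4 * C))
      have h3 : C / c < Real.exp (y / 2 * (Real.log x - 4 * C)) := by linarith
      rw [Real.exp_neg, ← div_eq_mul_inv, div_lt_iff₀ (Real.exp_pos _)]
      rw [div_lt_iff₀ hc] at h3
      linarith
    calc ‖A (x + y * I)‖ ≤ C * m * Real.exp (-(y * β.re)) * Real.exp (Real.log x / 2 * max (y - ε) 0) := u1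
      _ ≤ C * m * Real.exp (-(y * β.re)) * Real.exp (Real.log x / 2 * y) := by gcongr
      _ = C * Real.exp (Real.log x / 2 * y - 2 * (y * β.re)) * (m * Real.exp (y * β.re)) := by
          have : Real.exp (-(y * β.re)) * Real.exp (Real.log x / 2 * y) =
              Real.exp (Real.log x / 2 * y - 2 * (y * β.re)) * Real.exp (y * β.re) := by
            rw [← Real.exp_add, ← Real.exp_add]; congr 1; ring
          calc _ = C * m * (Real.exp (-(y * β.re)) * Real.exp (Real.log x / 2 * y)) := by ring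
            _ = _ := by rw [this]; ring
      _ ≤ C * Real.exp (-(y / 2 * (Real.log x - 4 * C))) * (m * Real.exp (y * β.re)) := by
          have : Real.log x / 2 * y - 2 * (y * β.re) ≤ -(y / 2 * (Real.log x - 4 * C)) := by nlinarith
          gcongr
      _ < c * (m * Real.exp (y * β.re)) := by
          have : 0 < m * Real.exp (y * β.re) := mul_pos hm (Real.exp_pos _)
          gcongr
      _ = c * m * Real.exp (y * β.re) := by ring
      _ ≤ ‖A (x - y * I)‖ := l1

/-- the logarithmic derivative on the real axis -/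
theorem logder (hA : Differentiable ℂ A) (h : AP A ε C c x β m) : A x ≠ 0 ∧
    ‖deriv A x / A x - I * (Real.log x / 2 : ℝ)‖ ≤ C + 2 * C / (c * ε) := by
  have hC := h.C1
  have hc := h.c0
  have he := h.e0
  have hm := h.m0
  have hx0 : ‖(x : ℂ) - x‖ ≤ ε / 2 := by rw [sub_self, norm_zero]; linarith
  have h1 := hh_lo h x (by rw [sub_self, norm_zero]; linarith)
  have h2 := hh_der hA h x hx0
  have hmc : (m : ℂ) ≠ 0 := by exact_mod_cast hm.ne'
  have h3 : hh A β m x x = A x / m := by
    unfold hh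
    simp
  have h4 : deriv (hh A β m x) x = (deriv A x - A x * (I * β)) / m := by
    rw [(hh_hd hA x).deriv]
    simp
    ring
  have hA0 : A x ≠ 0 := by
    intro h0
    rw [h3, h0, zero_div, norm_zero] at h1
    linarith
  refine ⟨hA0, ?_⟩
  have h5 : deriv A x / A x - I * (Real.log x / 2 : ℝ) = deriv (hh A β m x) x / hh A β m x x +
      I * (β - (Real.log x / 2 : ℝ)) := by
    rw [h3, h4]
    field_simp
    ring
  rw [h5]
  refine (norm_add_le _ _).trans ?_
  rw [norm_div, norm_mul, Complex.norm_I, one_mul]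
  have h6 : ‖deriv (hh A β m x) x‖ / ‖hh A β m x x‖ ≤ C / (ε / 2) / c := by gcongr
  have h7 : C / (ε / 2) / c = 2 * C / (c * ε) := by field_simp
  rw [h7] at h6
  linarith [h.hβ]

end

/-- the phase -/
theorem phase (A : ℂ → ℂ) (hA : Differentiable ℂ A) (X1 C3 : ℝ)
    (h : ∀ x : ℝ, X1 ≤ x → A x ≠ 0 ∧ ‖deriv A x / A x - I * (Real.log x / 2 : ℝ)‖ ≤ C3) :
    ∃ (α α' r : ℝ → ℝ), (∀ x : ℝ, X1 ≤ x → 0 < r x ∧ (A x).re = r x * Real.cos (α x)) ∧
      ∀ x : ℝ, X1 ≤ x → HasDerivAt α (α' x) x ∧ |α' x - Real.log x / 2| ≤ C3 := by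
  obtain ⟨L, hL⟩ : ∃ L : ℝ → ℂ, L = fun u => deriv A ((max u X1 : ℝ) : ℂ) / A ((max u X1 : ℝ) : ℂ) := ⟨_, rfl⟩
  have hdA : Differentiable ℂ (deriv A) := hA.deriv
  have hLc : Continuous L := by
    rw [hL]
    refine Continuous.div ?_ ?_ ?_
    · exact hdA.continuous.comp (Complex.continuous_ofReal.comp (continuous_id.max continuous_const))
    · exact hA.continuous.comp (Complex.continuous_ofReal.comp (continuous_id.max continuous_const))
    · intro u
      exact (h _ (le_max_right _ _)).1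
  obtain ⟨Φ, hΦ⟩ : ∃ Φ : ℝ → ℂ, Φ = fun x => ∫ u in X1..x, L u := ⟨_, rfl⟩
  have hΦd : ∀ x, HasDerivAt Φ (L x) x := by
    intro x
    rw [hΦ]
    exact (hLc.integral_hasStrictDerivAt X1 x).hasDerivAt
  have hΦ0 : Φ X1 = 0 := by rw [hΦ]; simp
  have hconst : ∀ x : ℝ, X1 ≤ x → A x = A X1 * cexp (Φ x) := by
    intro x hx
    have hF : ∀ y : ℝ, X1 ≤ y → HasDerivAt (fun y : ℝ => A y * cexp (-Φ y)) 0 y := by
      intro y hy
      have h1 : HasDerivAt (fun y : ℝ => A y) (deriv A y) y := (hA y).hasDerivAt.comp_ofReal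
      have h2 := h1.mul ((hΦd y).neg.cexp)
      have h3 : deriv A y * cexp (-Φ y) + A y * (cexp (-Φ y) * (-L y)) = 0 := by
        have h4 : L y = deriv A y / A y := by
          rw [hL]
          simp only [max_eq_left hy]
        rw [h4]
        have := (h y hy).1
        field_simp
        ring
      rw [← h3]
      exact h2
    have hc := constant_of_has_deriv_right_zero (a := X1) (b := x) (f := fun y : ℝ => A y * cexp (-Φ y))
      (fun y hy => (hF y hy.1).continuousAt.continuousWithinAt)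
      (fun y hy => (hF y hy.1).hasDerivWithinAt) x ⟨hx, le_rfl⟩
    simp only [hΦ0, neg_zero, Complex.exp_zero, mul_one] at hc
    rw [← hc, mul_assoc, ← Complex.exp_add, neg_add_cancel, Complex.exp_zero, mul_one]
  refine ⟨fun x => Complex.arg (A X1) + (Φ x).im, fun x => (L x).im, fun x => ‖A X1‖ * Real.exp (Φ x).re, ?_, ?_⟩
  · intro x hx
    have h0 : 0 < ‖A X1‖ := norm_pos_iff.2 (h X1 le_rfl).1
    refine ⟨by positivity, ?_⟩
    rw [hconst x hx]
    have e1 : A X1 * cexp (Φ x) = ((‖A X1‖ * Real.exp (Φ x).re : ℝ) : ℂ) *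
        cexp (((Complex.arg (A X1) + (Φ x).im : ℝ) : ℂ) * I) := by
      have e2 : cexp (Φ x) = ((Real.exp (Φ x).re : ℝ) : ℂ) * cexp (((Φ x).im : ℂ) * I) := by
        rw [Complex.ofReal_exp, ← Complex.exp_add, Complex.re_add_im]
      rw [e2]
      conv_lhs => rw [← Complex.norm_mul_exp_arg_mul_I (A X1)]
      push_cast
      rw [add_mul, Complex.exp_add]
      ring
    rw [e1, Complex.re_ofReal_mul, Complex.exp_ofReal_mul_I_re]
  · intro x hx
    constructor
    · have h1 : HasDerivAt (fun x => (Φ x).im) (L x).im x :=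
        (Complex.imCLM.hasFDerivAt.comp_hasDerivAt x (hΦd x))
      exact h1.const_add _
    · have h1 : L x = deriv A x / A x := by
        rw [hL]
        simp only [max_eq_left hx]
      show |(L x).im - Real.log x / 2| ≤ C3
      rw [h1]
      have h2 := (Complex.abs_im_le_norm _).trans (h x hx).2
      have h3 : (deriv A x / A x - I * (Real.log x / 2 : ℝ)).im = (deriv A x / A x).im - Real.log x / 2 := by
        rw [Complex.sub_im, Complex.I_mul_im, Complex.ofReal_re]
      rw [h3] at h2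
      exact h2

theorem zer : S_ZER := by
  rintro A hA ⟨ε, C, c, x0, hε, hε1, hC, hc, hx0, H⟩ G hG
  have hπ := Real.pi_pos
  have HAP : ∀ x : ℝ, x0 ≤ x → ∃ (β : ℂ) (m : ℝ), AP A ε C c x β m := by
    intro x hx
    obtain ⟨β, m, hm, hβ, hz⟩ := H x hx
    exact ⟨β, m, ⟨hε, hε1, hC, hc, hm, hβ, fun z hz1 => (hz z hz1).1, fun z hz1 => (hz z hz1).2⟩⟩
  obtain ⟨C3, hC3⟩ : ∃ C3, C3 = C + 2 * C / (c * ε) := ⟨_, rfl⟩
  have hC31 : 1 ≤ C3 := by
    have : 0 ≤ 2 * C / (c * ε) := by positivity
    linarith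
  have hld : ∀ x : ℝ, x0 ≤ x → A x ≠ 0 ∧ ‖deriv A x / A x - I * (Real.log x / 2 : ℝ)‖ ≤ C3 := by
    intro x hx
    obtain ⟨β, m, h⟩ := HAP x hx
    rw [hC3]
    exact logder hA h
  obtain ⟨α, α', r, hα1, hα2⟩ := phase A hA x0 C3 hld
  obtain ⟨T, hT⟩ : ∃ T, T = 4 * C + 4 * C / (c * ε) + 20 * C3 + 20 := ⟨_, rfl⟩
  have hq : 0 < 4 * C / (c * ε) := by positivity
  obtain ⟨x1, hx1⟩ : ∃ x1, x1 = max x0 (Real.exp T) := ⟨_, rfl⟩
  have h01 : x0 ≤ x1 := by rw [hx1]; exact le_max_left _ _
  have hlog : ∀ x, x1 ≤ x → T ≤ Real.log x := by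
    intro x hx
    have h1 : Real.exp T ≤ x := (by rw [hx1]; exact le_max_right _ _ : Real.exp T ≤ x1).trans hx
    rw [Real.le_log_iff_exp_le (lt_of_lt_of_le (Real.exp_pos _) h1)]
    exact h1
  have hx12 : 2 ≤ x1 := by
    have h1 : Real.exp T ≤ x1 := by rw [hx1]; exact le_max_right _ _
    have h2 := Real.add_one_le_exp T
    linarith
  -- values on the real axis
  have hGr : ∀ x : ℝ, G x = ((2 * (A x).re : ℝ) : ℂ) := by
    intro x
    rw [hG, Complex.conj_ofReal, Complex.add_conj]
  have hG0 : ∀ x : ℝ, x1 ≤ x → (G x = 0 ↔ Real.cos (α x) = 0) := by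
    intro x hx
    obtain ⟨h1, h2⟩ := hα1 x (h01.trans hx)
    rw [hGr, Complex.ofReal_eq_zero, h2]
    constructor
    · intro h3
      have h4 : r x * Real.cos (α x) = 0 := by linarith
      rcases mul_eq_zero.1 h4 with h5 | h5
      · exact absurd h5 h1.ne'
      · exact h5
    · intro h3
      rw [h3]; ring
  have hmvt : ∀ x y : ℝ, x1 ≤ x → x < y → ∃ ξ, x < ξ ∧ ξ < y ∧ α y - α x = α' ξ * (y - x) ∧
      Real.log ξ / 2 - C3 ≤ α' ξ ∧ α' ξ ≤ Real.log ξ / 2 + C3 := by
    intro x y hx hxy
    obtain ⟨ξ, hξ, h1⟩ := exists_hasDerivAt_eq_slope α α' hxy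
      (fun u hu => (hα2 u (h01.trans (hx.trans hu.1))).1.continuousAt.continuousWithinAt)
      (fun u hu => (hα2 u (h01.trans (hx.trans hu.1.le))).1)
    have h2 := abs_le.1 (hα2 ξ (h01.trans (hx.trans hξ.1.le))).2
    refine ⟨ξ, hξ.1, hξ.2, ?_, by linarith [h2.1], by linarith [h2.2]⟩
    rw [h1]
    have : y - x ≠ 0 := by linarith
    field_simp
  have hmono : ∀ x y : ℝ, x1 ≤ x → x < y → (Real.log x / 2 - C3) * (y - x) ≤ α y - α x := by
    intro x y hx hxy
    obtain ⟨ξ, h1, h2, h3, h4, h5⟩ := hmvt x y hx hxy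
    rw [h3]
    have hxp : 0 < x := by linarith
    have : Real.log x ≤ Real.log ξ := Real.log_le_log hxp h1.le
    have h6 : Real.log x / 2 - C3 ≤ α' ξ := by linarith
    nlinarith
  have hcont : ∀ x y : ℝ, x1 ≤ x → ContinuousOn α (Set.Icc x y) := fun x y hx u hu =>
    (hα2 u (h01.trans (hx.trans hu.1))).1.continuousAt.continuousWithinAt
  have hivt : ∀ x y : ℝ, x1 ≤ x → x ≤ y → ∀ p, α x ≤ p → p ≤ α y → ∃ u, x ≤ u ∧ u ≤ y ∧ α u = p := by
    intro x y hx hxy p h1 h2
    obtain ⟨u, hu, h3⟩ := intermediate_value_Icc hxy (hcont x y hx) ⟨h1, h2⟩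
    exact ⟨u, hu.1, hu.2, h3⟩
  have hL20 : ∀ x, x1 ≤ x → 20 * C3 + 20 ≤ Real.log x := by
    intro x hx
    have := hlog x hx
    linarith
  refine ⟨4 * (C3 + 1), x1, hx12, ?_, ?_, ?_, ?_⟩
  · -- (a)
    intro z hz him hne h0
    have hlz := hlog z.re hz
    obtain ⟨β, m, hAP⟩ := HAP z.re (h01.trans hz)
    have hnrm : ‖A z‖ = ‖A (conj z)‖ := by
      rw [hG] at h0
      rw [eq_neg_of_add_eq_zero_left h0, norm_neg, RCLike.norm_conj]
    rcases lt_or_gt_of_ne hne with h1 | h1
    · have hy : 0 < -z.im := by linarith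
      have hy2 : -z.im ≤ 1 / 2 := by rw [abs_of_neg h1] at him; exact him
      have h := sides hA hAP (by linarith) (-z.im) hy hy2
      have e1 : (z.re : ℂ) + ((-z.im : ℝ) : ℂ) * I = conj z := by
        apply Complex.ext <;> simp
      have e2 : (z.re : ℂ) - ((-z.im : ℝ) : ℂ) * I = z := by
        apply Complex.ext <;> simp
      rw [e1, e2, hnrm] at h
      exact lt_irrefl _ h
    · have hy2 : z.im ≤ 1 / 2 := by rw [abs_of_pos h1] at him; exact him
      have h := sides hA hAP (by linarith) z.im h1 hy2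
      have e1 : (z.re : ℂ) + ((z.im : ℝ) : ℂ) * I = z := by
        apply Complex.ext <;> simp
      have e2 : (z.re : ℂ) - ((z.im : ℝ) : ℂ) * I = conj z := by
        apply Complex.ext <;> simp
      rw [e1, e2, hnrm] at h
      exact lt_irrefl _ h
  · -- (b)
    intro x hx h0
    have hL := hL20 x hx
    obtain ⟨hA0, hl⟩ := hld x (h01.trans hx)
    have hre : (A x).re = 0 := by
      rw [hGr, Complex.ofReal_eq_zero] at h0
      linarith
    have him : (A x).im ≠ 0 := fun h => hA0 (Complex.ext hre h)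
    have hd : HasDerivAt G (deriv A x + conj (deriv A x)) x := by
      have h1 := (hA x).hasDerivAt
      have h2 := h1.conj_conj
      rw [Complex.conj_ofReal] at h2
      have h3 := h1.add h2
      have h4 : G = A + (conj ∘ A ∘ conj) := by
        funext z
        rw [hG]
        rfl
      rw [h4]
      exact h3
    rw [hd.deriv, Complex.add_conj, Ne, Complex.ofReal_eq_zero]
    have h5 : (deriv A x).re = -((deriv A x / A x).im * (A x).im) := by
      have h6 : deriv A x = (deriv A x / A x) * A x := by field_simp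
      have h7 := congrArg Complex.re h6
      rw [Complex.mul_re, hre, mul_zero, zero_sub] at h7
      exact h7
    have h6 : 0 < (deriv A x / A x).im := by
      have h2 := (Complex.abs_im_le_norm _).trans hl
      have h3 : (deriv A x / A x - I * (Real.log x / 2 : ℝ)).im = (deriv A x / A x).im - Real.log x / 2 := by
        rw [Complex.sub_im, Complex.I_mul_im, Complex.ofReal_re]
      rw [h3] at h2
      have := (abs_le.1 h2).1
      linarith
    rw [h5]
    have h7 : (deriv A x / A x).im * (A x).im ≠ 0 := mul_ne_zero h6.ne' him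
    intro h8
    apply h7
    linarith
  · -- (c)
    intro x hx
    have hL := hL20 x hx
    have hLp : 0 < Real.log x := by linarith
    have hy : x < x + 7 / Real.log x := by
      have : 0 < 7 / Real.log x := by positivity
      linarith
    have h1 := hmono x (x + 7 / Real.log x) hx hy
    have h2 : Real.pi ≤ α (x + 7 / Real.log x) - α x := by
      refine le_trans ?_ h1
      have h3 : (Real.log x / 2 - C3) * (x + 7 / Real.log x - x) = 7 / 2 - 7 * (C3 / Real.log x) := by
        field_simp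
        ring
      rw [h3]
      have h4 : C3 / Real.log x ≤ 1 / 20 := by
        rw [div_le_div_iff₀ hLp (by norm_num)]
        linarith
      have h5 := Real.pi_lt_d2
      linarith
    obtain ⟨k, hk⟩ : ∃ k, k = ⌈(α x - Real.pi / 2) / Real.pi⌉ := ⟨_, rfl⟩
    have k1 : (α x - Real.pi / 2) / Real.pi ≤ k := by rw [hk]; exact Int.le_ceil _
    have k2 : (k : ℝ) < (α x - Real.pi / 2) / Real.pi + 1 := by rw [hk]; exact Int.ceil_lt_add_one _
    rw [div_le_iff₀ hπ] at k1
    have k3 : (k : ℝ) * Real.pi < (α x - Real.pi / 2) + Real.pi := by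
      have h6 : ((α x - Real.pi / 2) / Real.pi + 1) * Real.pi = (α x - Real.pi / 2) + Real.pi := by
        field_simp
      rw [← h6]
      exact mul_lt_mul_of_pos_right k2 hπ
    obtain ⟨u, hu1, hu2, hu3⟩ := hivt x (x + 7 / Real.log x) hx hy.le ((2 * (k : ℝ) + 1) * Real.pi / 2)
      (by linarith) (by linarith)
    refine ⟨u, hu1, hu2, ?_⟩
    rw [hG0 u (hx.trans hu1), Real.cos_eq_zero_iff]
    exact ⟨k, hu3⟩
  · -- (d)
    intro x y hx hxy hGx hGy hno
    have hL := hL20 x hx
    have hLp : 0 < Real.log x := by linarith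
    have hxp : 0 < x := by linarith
    rw [hG0 x hx, Real.cos_eq_zero_iff] at hGx
    rw [hG0 y (hx.trans hxy.le), Real.cos_eq_zero_iff] at hGy
    obtain ⟨k, hk⟩ := hGx
    obtain ⟨j, hj⟩ := hGy
    have h1 := hmono x y hx hxy
    have hlt : α x < α y := by
      have : 0 < (Real.log x / 2 - C3) * (y - x) := mul_pos (by linarith) (by linarith)
      linarith
    have hkj : k < j := by
      rw [hk, hj] at hlt
      have : (k : ℝ) < j := by
        by_contra hcon
        push Not at hcon
        nlinarith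
      exact_mod_cast this
    have hjk : j = k + 1 := by
      by_contra hcon
      have h2 : k + 2 ≤ j := by omega
      have h2r : (k : ℝ) + 2 ≤ j := by exact_mod_cast h2
      obtain ⟨u, hu1, hu2, hu3⟩ := hivt x y hx hxy.le ((2 * ((k + 1 : ℤ) : ℝ) + 1) * Real.pi / 2)
        (by rw [hk]; push_cast; nlinarith) (by rw [hj]; push_cast; nlinarith)
      have hux : u ≠ x := by
        rintro rfl
        rw [hk] at hu3
        push_cast at hu3
        nlinarith
      have huy : u ≠ y := by
        rintro rfl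
        rw [hj] at hu3
        push_cast at hu3
        nlinarith
      refine hno u (lt_of_le_of_ne hu1 (Ne.symm hux)) (lt_of_le_of_ne hu2 huy) ?_
      rw [hG0 u (hx.trans hu1), Real.cos_eq_zero_iff]
      exact ⟨k + 1, hu3⟩
    have hdiff : α y - α x = Real.pi := by
      rw [hj, hk, hjk]
      push_cast
      ring
    have hyx : y - x ≤ 4 * Real.pi / Real.log x := by
      rw [le_div_iff₀ hLp]
      rw [hdiff] at h1
      have h3 : Real.log x / 4 * (y - x) ≤ (Real.log x / 2 - C3) * (y - x) := by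
        have : Real.log x / 4 ≤ Real.log x / 2 - C3 := by linarith
        have h4 : 0 ≤ y - x := by linarith
        gcongr
      linarith
    obtain ⟨ξ, g1, g2, g3, g4, g5⟩ := hmvt x y hx hxy
    have l1 : Real.log x ≤ Real.log ξ := Real.log_le_log hxp g1.le
    have l2 : Real.log ξ ≤ Real.log x + 1 := by
      have hξp : 0 < ξ := by linarith
      have h3 : Real.log ξ - Real.log x ≤ ξ / x - 1 := by
        rw [← Real.log_div hξp.ne' hxp.ne']
        exact Real.log_le_sub_one_of_pos (by positivity)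
      have h4 : ξ / x - 1 ≤ 1 := by
        have h5 : ξ ≤ 2 * x := by
          have h6 : 4 * Real.pi / Real.log x ≤ 1 := by
            rw [div_le_one hLp]
            have := Real.pi_lt_d2
            linarith
          linarith
        rw [sub_le_iff_le_add, div_le_iff₀ hxp]
        linarith
      linarith
    have hdev : |Real.log x / 2 - α' ξ| ≤ C3 + 1 := by
      rw [abs_le]
      constructor <;> linarith
    have hval : (y - x) * Real.log x / (2 * Real.pi) - 1 = (y - x) * (Real.log x / 2 - α' ξ) / Real.pi := by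
      rw [hdiff] at g3
      have : (y - x) * (Real.log x / 2 - α' ξ) = (y - x) * Real.log x / 2 - Real.pi := by
        linear_combination (-1 : ℝ) * (-g3)
      rw [this]
      field_simp
    rw [hval, abs_div, abs_mul, abs_of_pos hπ, abs_of_pos (by linarith : 0 < y - x)]
    rw [div_le_div_iff₀ hπ hLp]
    rw [le_div_iff₀ hLp] at hyx
    have h9 : 0 ≤ |Real.log x / 2 - α' ξ| := abs_nonneg _
    calc (y - x) * |Real.log x / 2 - α' ξ| * Real.log x
        = ((y - x) * Real.log x) * |Real.log x / 2 - α' ξ| := by ring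
      _ ≤ (4 * Real.pi) * (C3 + 1) := mul_le_mul hyx hdev h9 (by positivity)
      _ = 4 * (C3 + 1) * Real.pi := by ring

end Pool.Agent.N539.KL
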